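import Pool.Agent.Helper79K9.RD.Main

set_option autoImplicit false

/-!
# The determinant of an R-disjoint graph and its flower decomposition

For every R-disjoint graph `G` with flower decomposition `B(G), R_1, …, R_k` we have
`det A(G) = det A(G[B(G)]) * ∏ det A(G[R_i])`.

Proof. In the permutation expansion of the determinant only the permutations `π` with `π v`
adjacent to `v` for all `v` matter, and such a permutation preserves every reach set `R(C)`. Indeed,
let `D` be the set of the vertices outside `C` which are missed by a maximum matching and are the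
end of a stem of a flower with blossom `C`, and let `A` be the set of the other vertices of `R(C)`
outside `C`. Then all neighbours of `D` are in `A`, all neighbours of `C` are in `C ∪ A`, and
`|A| ≤ |D|`, because a maximum matching matches `A` into `D`. So `π` exchanges `A` and `D`.
-/

namespace Pool.Agent.Results.MP_079569_co.FlowerDeterminant

open SimpleGraph Pool.Agent.Helper79K9.RD

theorem det_inst {W : Type*} (H : SimpleGraph W) (i1 i2 : Fintype W) (d1 d2 : DecidableEq W)
    (r1 r2 : DecidableRel H.Adj) : @Matrix.det W d1 i1 ℝ _ (@adjMatrix ℝ W H r1 _ _) =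
      @Matrix.det W d2 i2 ℝ _ (@adjMatrix ℝ W H r2 _ _) := by
  obtain rfl := Subsingleton.elim i1 i2
  obtain rfl := Subsingleton.elim d1 d2
  obtain rfl := Subsingleton.elim r1 r2
  rfl

theorem detA_eq {W : Type*} [Fintype W] [DecidableEq W] (H : SimpleGraph W) [DecidableRel H.Adj] :
    detA H = (H.adjMatrix ℝ).det :=
  det_inst H _ _ _ _ _ _

theorem det_block {V : Type*} [Fintype V] [DecidableEq V] (G : SimpleGraph V)
    [DecidableRel G.Adj] (p : V → Prop) [DecidablePred p] (X : Set V) (h : ∀ v, p v ↔ v ∈ X) :
    (Matrix.of fun i j : {v // p v} => G.adjMatrix ℝ i.1 j.1).det = detA (G.induce X) := by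
  classical
  obtain rfl : X = {v | p v} := by
    ext v; exact (h v).symm
  rw [detA_eq]
  congr 1

/-- For every R-disjoint graph `G` the determinant of the adjacency matrix is the product of the
determinants of the adjacency matrices of the subgraphs induced on the parts of the flower
decomposition `B(G), R_1, …, R_k`, where `R_i = R(C_i)` for the odd cycles `C_1, …, C_k`. -/
theorem result {V : Type*} [Finite V] (G : SimpleGraph V) (h : RDisjoint G) :
    detA G = detA (G.induce (bipPart G)) * ∏ C ∈ oddCycles G, detA (G.induce (reach C)) := by
  classical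
  let : Fintype V := Fintype.ofFinite V
  let I := {C : G.Subgraph // IsOddCyc G C}
  have hfin : Finite I := inferInstance
  let : Fintype I := Fintype.ofFinite I
  have huniq : ∀ (C C' : I) (v : V), v ∈ reach C.1 → v ∈ reach C'.1 → C = C' := by
    intro C C' v h1 h2
    by_contra hne
    exact Set.disjoint_left.1 (h.disjoint C.1 C'.1 C.2 C'.2 (fun e => hne (Subtype.ext e))) h1 h2
  let lab : V → Option I := fun v => if hv : ∃ C : I, v ∈ reach C.1 then some hv.choose else none
  have lab_some : ∀ v (C : I), lab v = some C ↔ v ∈ reach C.1 := by
    intro v C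
    by_cases hv : ∃ C : I, v ∈ reach C.1
    · simp only [lab, hv, dite_true, Option.some.injEq]
      constructor
      · rintro rfl; exact hv.choose_spec
      · exact fun h1 => huniq _ _ v hv.choose_spec h1
    · simp only [lab, hv, dite_false]
      constructor
      · intro h1; exact absurd h1 (by simp)
      · intro h1; exact absurd ⟨C, h1⟩ hv
  have lab_none : ∀ v, lab v = none ↔ v ∈ bipPart G := by
    intro v
    by_cases hv : ∃ C : I, v ∈ reach C.1
    · simp only [lab, hv, dite_true]
      constructor
      · intro h1; exact absurd h1 (by simp)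
      · obtain ⟨C, hC⟩ := hv
        intro h1; exact absurd hC (h1 C.1 C.2)
    · simp only [lab, hv, dite_false, true_iff]
      intro C hC h1
      exact hv ⟨⟨C, hC⟩, h1⟩
  have hlab : ∀ σ : Equiv.Perm V, (∀ v, G.Adj v (σ v)) → ∀ v, lab (σ v) = lab v := by
    intro σ hσ v
    cases hv : lab v with
    | some C =>
      rw [lab_some] at hv ⊢
      exact perm_reach h C.2 σ hσ hv
    | none =>
      rw [lab_none] at hv ⊢
      intro C hC h1
      have hσ' : ∀ v, G.Adj v (σ.symm v) := by
        intro w
        have := hσ (σ.symm w)
        rw [Equiv.apply_symm_apply] at this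
        exact this.symm
      have := perm_reach h hC σ.symm hσ' h1
      rw [Equiv.symm_apply_apply] at this
      exact hv C hC this
  set M := G.adjMatrix ℝ with hM
  let M' : Matrix V V ℝ := Matrix.of fun i j => if lab i = lab j then M i j else 0
  have h1 : M.det = M'.det := by
    rw [Matrix.det_apply, Matrix.det_apply]
    apply Finset.sum_congr rfl
    intro σ _
    congr 1
    by_cases hσ : ∀ v, G.Adj v (σ v)
    · apply Finset.prod_congr rfl
      intro v _
      simp only [M', Matrix.of_apply, hlab σ hσ v, if_true]
    · push Not at hσ
      obtain ⟨v, hv⟩ := hσ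
      have e : M (σ v) v = 0 := by
        simp only [hM, adjMatrix_apply]
        rw [if_neg (fun h => hv h.symm)]
      have e' : M' (σ v) v = 0 := by
        simp only [M', Matrix.of_apply, e, ite_self]
      rw [Finset.prod_eq_zero (f := fun i => M (σ i) i) (Finset.mem_univ v) e,
        Finset.prod_eq_zero (f := fun i => M' (σ i) i) (Finset.mem_univ v) e']
  let e := Finite.equivFin (Option I)
  have h2 : M'.BlockTriangular (fun v => e (lab v)) := by
    intro i j hij
    have : lab i ≠ lab j := by
      intro h3
      have h4 : e (lab j) < e (lab i) := hij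
      rw [h3] at h4
      exact lt_irrefl _ h4
    simp only [M', Matrix.of_apply, this, if_false]
  have h3 : ∀ (a : Option I) (X : Set V), (∀ v, lab v = a ↔ v ∈ X) →
      (M'.toSquareBlock (fun v => e (lab v)) (e a)).det = detA (G.induce X) := by
    intro a X hX
    rw [← det_block G (fun v => e (lab v) = e a) X (by
      intro v; rw [e.apply_eq_iff_eq]; exact hX v)]
    congr 1
    ext i j
    have hi : lab i.1 = a := e.injective i.2
    have hj : lab j.1 = a := e.injective j.2
    simp only [Matrix.toSquareBlock_def, Matrix.of_apply, M', hi, hj, if_true, hM]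
  rw [detA_eq, ← hM, h1, h2.det_fintype, ← e.prod_comp, Fintype.prod_option]
  congr 1
  · exact h3 none _ lab_none
  · have h4 : ∀ C : I, (M'.toSquareBlock (fun v => e (lab v)) (e (some C))).det =
        detA (G.induce (reach C.1)) := fun C => h3 (some C) _ (fun v => lab_some v C)
    rw [Finset.prod_congr rfl (fun C _ => h4 C)]
    symm
    apply Finset.prod_subtype (oddCycles G) (p := fun C => IsOddCyc G C)
    intro C
    simp [oddCycles]

end Pool.Agent.Results.MP_079569_co.FlowerDeterminant
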